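import Pool.Agent.Lib.MP_fa837f_gt.P2.H22.Fb
import Pool.Agent.Lib.MP_fa837f_gt.P2.Iface

/-!
MP_fa837f_gt, project P2, module PA: the abstract Poincare inequality, from the row LI.
-/

set_option autoImplicit false

open MeasureTheory Matrix Set Filter Topology

namespace Pool.Agent.Lib.MP_fa837f_gt.P2.H41

open H22

variable {ι : Type} [Fintype ι] [DecidableEq ι] {ρ : (ι → ℝ) → ℝ} {A : (ι → ℝ) → ι → ι → ℝ}
  {ψ : (ι → ℝ) → ℝ}

/-- the flux -/
noncomputable def Fl (ρ : (ι → ℝ) → ℝ) (A : (ι → ℝ) → ι → ι → ℝ) (ψ : (ι → ℝ) → ℝ) (p : ι)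
    (z : ι → ℝ) : ℝ := ρ z * ∑ q, A z p q * pd q ψ z

theorem pd_out (q : ι) {x : ι → ℝ} (hx : x ∉ tsupport ψ) : pd q ψ x = 0 := by
  unfold pd
  have h1 : x ∉ Function.support (fderiv ℝ ψ) := fun h => hx (support_fderiv_subset ℝ h)
  rw [Function.notMem_support.mp h1]
  rfl

theorem fl_smooth (hD : Diff ρ A) (hψ : Tst ψ) (p : ι) :
    ContDiff ℝ (⊤ : ℕ∞) (Fl ρ A ψ p) :=
  hD.sρ.mul (ContDiff.sum fun q _ => (hD.sA p q).mul (pd_contDiff hψ.1 q))

theorem fl_supp (hψ : Tst ψ) (p : ι) : HasCompactSupport (Fl ρ A ψ p) := by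
  refine HasCompactSupport.intro hψ.2.isCompact fun x hx => ?_
  unfold Fl
  rw [Finset.sum_eq_zero (fun q _ => by rw [pd_out q hx, mul_zero]), mul_zero]

theorem lop_eq (y : ι → ℝ) : Lop ρ A ψ y = (∑ p, pd p (Fl ρ A ψ p) y) / ρ y := rfl

theorem lop_mul (hD : Diff ρ A) (y : ι → ℝ) : Lop ρ A ψ y * ρ y = ∑ p, pd p (Fl ρ A ψ p) y := by
  rw [lop_eq, div_mul_cancel₀ _ (hD.pos y).ne']

theorem lop_cont (hD : Diff ρ A) (hψ : Tst ψ) : Continuous (Lop ρ A ψ) := by
  have h : Lop ρ A ψ = fun y => (∑ p, pd p (Fl ρ A ψ p) y) / ρ y := rfl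
  rw [h]
  refine Continuous.div ?_ hD.sρ.continuous fun y => (hD.pos y).ne'
  exact continuous_finsetSum _ fun p _ => (pd_contDiff (fl_smooth hD hψ p) p).continuous

theorem lop_supp (hψ : Tst ψ) : HasCompactSupport (Lop ρ A ψ) := by
  refine HasCompactSupport.intro hψ.2.isCompact fun x hx => ?_
  rw [lop_eq]
  have h0 : ∀ p, pd p (Fl ρ A ψ p) x = 0 := by
    intro p
    refine pd_out p fun h => hx ?_
    have h1 : Function.support (Fl ρ A ψ p) ⊆ tsupport ψ := by
      intro z hz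
      by_contra hz'
      apply hz
      unfold Fl
      rw [Finset.sum_eq_zero (fun q _ => by rw [pd_out q hz', mul_zero]), mul_zero]
    exact closure_minimal h1 (isClosed_tsupport ψ) h
  rw [Finset.sum_eq_zero (fun p _ => h0 p), zero_div]

theorem pd_smul {f : (ι → ℝ) → ℝ} (hf : Differentiable ℝ f) (a : ℝ) (p : ι) (y : ι → ℝ) :
    pd p (fun z => a * f z) y = a * pd p f y := by
  unfold pd
  rw [fderiv_const_mul (hf y)]
  rfl

theorem lop_add (hD : Diff ρ A) {φ : (ι → ℝ) → ℝ} (hψ : Tst ψ) (hφ : Tst φ) (y : ι → ℝ) :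
    Lop ρ A (fun z => ψ z + φ z) y = Lop ρ A ψ y + Lop ρ A φ y := by
  have h1 : ∀ p, Fl ρ A (fun z => ψ z + φ z) p = fun z => Fl ρ A ψ p z + Fl ρ A φ p z := by
    intro p
    funext z
    unfold Fl
    rw [← mul_add, ← Finset.sum_add_distrib]
    congr 1
    refine Finset.sum_congr rfl fun q _ => ?_
    rw [pd_add (hψ.1.differentiable (by simp)) (hφ.1.differentiable (by simp)), mul_add]
  rw [lop_eq, lop_eq, lop_eq, ← add_div, ← Finset.sum_add_distrib]
  congr 1
  refine Finset.sum_congr rfl fun p _ => ?_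
  rw [h1, pd_add ((fl_smooth hD hψ p).differentiable (by simp))
    ((fl_smooth hD hφ p).differentiable (by simp))]

theorem lop_smul (hD : Diff ρ A) (hψ : Tst ψ) (a : ℝ) (y : ι → ℝ) :
    Lop ρ A (fun z => a * ψ z) y = a * Lop ρ A ψ y := by
  have h1 : ∀ p, Fl ρ A (fun z => a * ψ z) p = fun z => a * Fl ρ A ψ p z := by
    intro p
    funext z
    unfold Fl
    rw [Finset.mul_sum, Finset.mul_sum, Finset.mul_sum]
    refine Finset.sum_congr rfl fun q _ => ?_
    rw [pd_smul (hψ.1.differentiable (by simp))]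
    ring
  rw [lop_eq, lop_eq, ← mul_div_assoc, Finset.mul_sum]
  congr 1
  refine Finset.sum_congr rfl fun p _ => ?_
  rw [h1, pd_smul ((fl_smooth hD hψ p).differentiable (by simp))]

theorem tst_add {φ : (ι → ℝ) → ℝ} (hψ : Tst ψ) (hφ : Tst φ) : Tst fun z => ψ z + φ z :=
  ⟨hψ.1.add hφ.1, hψ.2.add hφ.2⟩

theorem tst_smul (hψ : Tst ψ) (a : ℝ) : Tst fun z => a * ψ z :=
  ⟨contDiff_const.mul hψ.1, hψ.2.mul_left⟩

/-- integration by parts -/
theorem ibp (hD : Diff ρ A) (hψ : Tst ψ) {f : (ι → ℝ) → ℝ} (hf : ContDiff ℝ 1 f) :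
    ∫ y, f y * Lop ρ A ψ y * ρ y = -∫ y, Gam A f ψ y * ρ y := by
  have hfc : ∀ p, Continuous (pd p f) := fun p =>
    (hf.continuous_fderiv (by simp)).clm_apply continuous_const
  have h1 : ∀ p, Integrable fun y => f y * pd p (Fl ρ A ψ p) y := fun p =>
    (hf.continuous.mul (pd_contDiff (fl_smooth hD hψ p) p).continuous).integrable_of_hasCompactSupport
      ((fl_supp hψ p).fderiv_apply (𝕜 := ℝ) _).mul_left
  have h2 : ∀ p, Integrable fun y => pd p f y * Fl ρ A ψ p y := fun p =>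
    ((hfc p).mul (fl_smooth hD hψ p).continuous).integrable_of_hasCompactSupport
      (fl_supp hψ p).mul_left
  have h3 : ∀ p, ∫ y, f y * pd p (Fl ρ A ψ p) y = -∫ y, pd p f y * Fl ρ A ψ p y := by
    intro p
    have h := integral_mul_fderiv_eq_neg_fderiv_mul_of_integrable (𝕜 := ℝ) (μ := volume)
      (f := f) (g := Fl ρ A ψ p) (v := Pi.single p 1)
      (h2 p) (h1 p)
      ((hf.continuous.mul (fl_smooth hD hψ p).continuous).integrable_of_hasCompactSupport
        (fl_supp hψ p).mul_left)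
      (fun x _ => hf.differentiable (by simp) x)
      (fun x _ => (fl_smooth hD hψ p).differentiable (by simp) x)
    exact h
  have h4 : ∀ y, f y * Lop ρ A ψ y * ρ y = ∑ p, f y * pd p (Fl ρ A ψ p) y := by
    intro y
    rw [mul_assoc, lop_mul hD, Finset.mul_sum]
  have h5 : ∀ y, Gam A f ψ y * ρ y = ∑ p, pd p f y * Fl ρ A ψ p y := by
    intro y
    unfold Gam Fl
    rw [Finset.sum_mul]
    refine Finset.sum_congr rfl fun p _ => ?_
    rw [Finset.sum_mul, Finset.mul_sum, Finset.mul_sum]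
    refine Finset.sum_congr rfl fun q _ => ?_
    ring
  simp only [h4, h5]
  rw [integral_finsetSum _ fun p _ => h1 p, integral_finsetSum _ fun p _ => h2 p,
    ← Finset.sum_neg_distrib]
  exact Finset.sum_congr rfl fun p _ => h3 p

theorem psd (hD : Diff ρ A) (y v : ι → ℝ) : 0 ≤ ∑ p, ∑ q, A y p q * v p * v q := by
  by_cases h : v = 0
  · simp [h]
  · exact (hD.posdef y v h).le

/-- the inequality of Cauchy and Schwarz -/
theorem cs (hD : Diff ρ A) (hψ : Tst ψ) {f : (ι → ℝ) → ℝ} (hf : ContDiff ℝ 1 f)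
    (hi : Integrable fun y => Gam A f f y * ρ y) :
    (∫ y, Gam A f ψ y * ρ y) ^ 2 ≤
      (∫ y, Gam A f f y * ρ y) * ∫ y, Gam A ψ ψ y * ρ y := by
  have hfc : ∀ p, Continuous (pd p f) := fun p =>
    (hf.continuous_fderiv (by simp)).clm_apply continuous_const
  have hψc : ∀ p, Continuous (pd p ψ) := fun p => (pd_contDiff hψ.1 p).continuous
  have i1 : Integrable fun y => Gam A f ψ y * ρ y := by
    refine Continuous.integrable_of_hasCompactSupport ?_ ?_
    · exact (continuous_finsetSum _ fun p _ => continuous_finsetSum _ fun q _ =>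
        ((hD.sA p q).continuous.mul (hfc p)).mul (hψc q)).mul hD.sρ.continuous
    · refine HasCompactSupport.intro hψ.2.isCompact fun x hx => ?_
      unfold Gam
      rw [Finset.sum_eq_zero, zero_mul]
      intro p _
      exact Finset.sum_eq_zero fun q _ => by rw [pd_out q hx, mul_zero]
  have i2 : Integrable fun y => Gam A ψ ψ y * ρ y := by
    refine Continuous.integrable_of_hasCompactSupport ?_ ?_
    · exact (continuous_finsetSum _ fun p _ => continuous_finsetSum _ fun q _ =>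
        ((hD.sA p q).continuous.mul (hψc p)).mul (hψc q)).mul hD.sρ.continuous
    · refine HasCompactSupport.intro hψ.2.isCompact fun x hx => ?_
      unfold Gam
      rw [Finset.sum_eq_zero, zero_mul]
      intro p _
      exact Finset.sum_eq_zero fun q _ => by rw [pd_out q hx, mul_zero]
  have h1 : ∀ t : ℝ, 0 ≤ (∫ y, Gam A ψ ψ y * ρ y) * (t * t) + (2 * ∫ y, Gam A f ψ y * ρ y) * t +
      ∫ y, Gam A f f y * ρ y := by
    intro t
    have h2 : (∫ y, Gam A ψ ψ y * ρ y) * (t * t) + (2 * ∫ y, Gam A f ψ y * ρ y) * t +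
        ∫ y, Gam A f f y * ρ y =
        ∫ y, ((t * t) * (Gam A ψ ψ y * ρ y) + (2 * t) * (Gam A f ψ y * ρ y) +
          Gam A f f y * ρ y) := by
      have i3 : Integrable fun y => (t * t) * (Gam A ψ ψ y * ρ y) + (2 * t) * (Gam A f ψ y * ρ y) :=
        (i2.const_mul _).add (i1.const_mul _)
      rw [integral_add i3 hi,
        integral_add (i2.const_mul _) (i1.const_mul _), integral_const_mul, integral_const_mul]
      ring
    rw [h2]
    refine integral_nonneg fun y => ?_
    have h3 := psd hD y fun p => t * pd p ψ y + pd p f y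
    have h4 : ∑ p, ∑ q, A y p q * (t * pd p ψ y + pd p f y) * (t * pd q ψ y + pd q f y) =
        (t * t) * Gam A ψ ψ y + (2 * t) * Gam A f ψ y + Gam A f f y := by
      have h5 : Gam A f ψ y = ∑ p, ∑ q, A y p q * pd p ψ y * pd q f y := by
        unfold Gam
        rw [Finset.sum_comm]
        refine Finset.sum_congr rfl fun q _ => Finset.sum_congr rfl fun p _ => ?_
        rw [hD.symm y p q]
        ring
      have h6 : (2 * t) * Gam A f ψ y = t * Gam A f ψ y +
          t * ∑ p, ∑ q, A y p q * pd p ψ y * pd q f y := by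
        rw [← h5]
        ring
      rw [h6]
      unfold Gam
      simp only [Finset.mul_sum, ← Finset.sum_add_distrib]
      refine Finset.sum_congr rfl fun q _ => Finset.sum_congr rfl fun p _ => ?_
      ring
    have h7 : t * t * (Gam A ψ ψ y * ρ y) + 2 * t * (Gam A f ψ y * ρ y) + Gam A f f y * ρ y =
        ((t * t) * Gam A ψ ψ y + (2 * t) * Gam A f ψ y + Gam A f f y) * ρ y := by ring
    show 0 ≤ t * t * (Gam A ψ ψ y * ρ y) + 2 * t * (Gam A f ψ y * ρ y) + Gam A f f y * ρ y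
    rw [h7, ← h4]
    exact mul_nonneg h3 (hD.pos y).le
  have h8 := discrim_le_zero h1
  unfold discrim at h8
  nlinarith

theorem inner_int (u v : Lp ℝ 2 (volume : Measure (ι → ℝ))) :
    inner ℝ u v = ∫ y, u y * v y := by
  rw [L2.inner_def]
  refine integral_congr_ae (Eventually.of_forall fun y => ?_)
  simp [mul_comm]

/-- the space of the functions `L ψ`, in `L²` of Lebesgue measure -/
noncomputable def VV (hD : Diff ρ A) : Submodule ℝ (Lp ℝ 2 (volume : Measure (ι → ℝ))) where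
  carrier := {v | ∃ ψ, Tst ψ ∧ ∀ᵐ y, v y = Lop ρ A ψ y * √(ρ y)}
  add_mem' := by
    rintro u v ⟨ψ, hψ, h1⟩ ⟨φ, hφ, h2⟩
    refine ⟨fun z => ψ z + φ z, tst_add hψ hφ, ?_⟩
    filter_upwards [h1, h2, Lp.coeFn_add u v] with y e1 e2 e3
    rw [e3, Pi.add_apply, e1, e2, lop_add hD hψ hφ]
    ring
  zero_mem' := by
    refine ⟨fun _ => 0, ⟨contDiff_const, HasCompactSupport.zero⟩, ?_⟩
    filter_upwards [Lp.coeFn_zero ℝ 2 (volume : Measure (ι → ℝ))] with y e
    rw [e]
    have h : Lop ρ A (fun _ : ι → ℝ => (0 : ℝ)) y = 0 := by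
      have := lop_smul hD (ψ := fun _ : ι → ℝ => (0 : ℝ))
        ⟨contDiff_const, HasCompactSupport.zero⟩ 0 y
      simpa using this
    rw [h]
    simp
  smul_mem' := by
    rintro a v ⟨ψ, hψ, h1⟩
    refine ⟨fun z => a * ψ z, tst_smul hψ a, ?_⟩
    filter_upwards [h1, Lp.coeFn_smul a v] with y e1 e3
    rw [e3, Pi.smul_apply, e1, lop_smul hD hψ, smul_eq_mul]
    ring

theorem mem_lp_lop (hD : Diff ρ A) (hψ : Tst ψ) :
    MemLp (fun y => Lop ρ A ψ y * √(ρ y)) 2 volume :=
  Continuous.memLp_of_hasCompactSupport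
    ((lop_cont hD hψ).mul (Real.continuous_sqrt.comp hD.sρ.continuous))
    (lop_supp hψ).mul_right

/-- PA -/
theorem pa_st (hLI : LiStatement) : PaStatement := by
  intro ι _ _ ρ A hD hB f hf hf2 hG
  have hsq : ∀ y, √(ρ y) * √(ρ y) = ρ y := fun y => Real.mul_self_sqrt (hD.pos y).le
  have hspos : ∀ y, 0 < √(ρ y) := fun y => Real.sqrt_pos.mpr (hD.pos y)
  have hscont : Continuous fun y => √(ρ y) := Real.continuous_sqrt.comp hD.sρ.continuous
  have hM : 0 < ∫ y, ρ y := by
    rw [integral_pos_iff_support_of_nonneg (fun y => (hD.pos y).le) hD.int]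
    have : Function.support ρ = univ := by
      ext y
      simp [(hD.pos y).ne']
    rw [this]
    exact isOpen_univ.measure_pos _ ⟨0, trivial⟩
  set M := ∫ y, ρ y with hMdef
  -- integrability of f rho
  have hf1 : Integrable fun y => f y * ρ y := by
    refine Integrable.mono' (hf2.add hD.int)
      (hf.continuous.mul hD.sρ.continuous).aestronglyMeasurable (Eventually.of_forall fun y => ?_)
    have h := hD.pos y
    rw [Real.norm_eq_abs, abs_mul, abs_of_pos h]
    show |f y| * ρ y ≤ f y ^ 2 * ρ y + ρ y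
    have h1 : |f y| ≤ f y ^ 2 + 1 := by
      rw [← sq_abs (f y)]
      nlinarith [sq_nonneg (|f y| - 1), abs_nonneg (f y)]
    nlinarith
  set c : ℝ := (∫ y, f y * ρ y) / M with hc
  have hcM : c * M = ∫ y, f y * ρ y := div_mul_cancel₀ _ hM.ne'
  set f0 : (ι → ℝ) → ℝ := fun y => f y - c with hf0
  have hf0c : ContDiff ℝ 1 f0 := hf.sub contDiff_const
  have hpd : ∀ p y, pd p f0 y = pd p f y := by
    intro p y
    unfold pd
    rw [hf0, fderiv_sub_const]
  have hGam : ∀ y, Gam A f0 f0 y = Gam A f f y := by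
    intro y
    unfold Gam
    simp only [hpd]
  have hGam' : ∀ ψ y, Gam A f0 ψ y = Gam A f ψ y := by
    intro ψ y
    unfold Gam
    simp only [hpd]
  -- integrals of f0
  have h01 : ∫ y, f0 y * ρ y = 0 := by
    have : ∀ y, f0 y * ρ y = f y * ρ y - c * ρ y := fun y => by rw [hf0]; ring
    simp only [this]
    rw [integral_sub hf1 (hD.int.const_mul c), integral_const_mul, ← hMdef, hcM, sub_self]
  have h02i : Integrable fun y => f0 y ^ 2 * ρ y := by
    have : (fun y => f0 y ^ 2 * ρ y) =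
        fun y => f y ^ 2 * ρ y - (2 * c) * (f y * ρ y) + c ^ 2 * ρ y := by
      funext y
      rw [hf0]
      ring
    rw [this]
    exact (hf2.sub (hf1.const_mul _)).add (hD.int.const_mul _)
  have h02 : ∫ y, f0 y ^ 2 * ρ y = (∫ y, f y ^ 2 * ρ y) - c ^ 2 * M := by
    have : ∀ y, f0 y ^ 2 * ρ y = f y ^ 2 * ρ y - (2 * c) * (f y * ρ y) + c ^ 2 * ρ y := by
      intro y
      rw [hf0]
      ring
    simp only [this]
    have i3 : Integrable fun y => f y ^ 2 * ρ y - (2 * c) * (f y * ρ y) :=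
      hf2.sub (hf1.const_mul _)
    rw [integral_add i3 (hD.int.const_mul _),
      integral_sub hf2 (hf1.const_mul _), integral_const_mul, integral_const_mul, ← hMdef, ← hcM]
    ring
  -- the vector F0
  have hF0m : MemLp (fun y => f0 y * √(ρ y)) 2 volume := by
    have hm : AEStronglyMeasurable (fun y => f0 y * √(ρ y)) volume :=
      (hf0c.continuous.mul hscont).aestronglyMeasurable
    rw [memLp_two_iff_integrable_sq hm]
    have : (fun y => (f0 y * √(ρ y)) ^ 2) = fun y => f0 y ^ 2 * ρ y := by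
      funext y
      rw [mul_pow, sq (√(ρ y)), hsq]
    rw [this]
    exact h02i
  set F0 : Lp ℝ 2 (volume : Measure (ι → ℝ)) := hF0m.toLp _ with hF0
  have hF0e : ∀ᵐ y, F0 y = f0 y * √(ρ y) := hF0m.coeFn_toLp
  have hnorm : ‖F0‖ ^ 2 = ∫ y, f0 y ^ 2 * ρ y := by
    rw [← real_inner_self_eq_norm_sq, inner_int]
    refine integral_congr_ae ?_
    filter_upwards [hF0e] with y e
    rw [e]
    calc f0 y * √(ρ y) * (f0 y * √(ρ y)) = f0 y ^ 2 * (√(ρ y) * √(ρ y)) := by ring
      _ = _ := by rw [hsq]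
  -- F0 is in the closure
  have hcl : F0 ∈ (VV hD).topologicalClosure := by
    rw [← Submodule.orthogonal_orthogonal_eq_closure, Submodule.mem_orthogonal]
    intro G hGo
    rw [Submodule.mem_orthogonal] at hGo
    obtain ⟨a, ha⟩ := hLI ι ρ A hD (fun y => G y / √(ρ y))
      (by
        have h1 := (Lp.aestronglyMeasurable G).mul
          (hscont.inv₀ fun y => (hspos y).ne').aestronglyMeasurable
        exact h1)
      (by
        have h1 := (memLp_two_iff_integrable_sq (Lp.aestronglyMeasurable G)).mp (Lp.memLp G)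
        refine h1.congr (Eventually.of_forall fun y => ?_)
        show G y ^ 2 = (G y / √(ρ y)) ^ 2 * ρ y
        rw [div_pow, sq (√(ρ y)), hsq, div_mul_cancel₀ _ (hD.pos y).ne'])
      (by
        intro ψ hψ
        have h1 := hGo ((mem_lp_lop hD hψ).toLp _) ⟨ψ, hψ, (mem_lp_lop hD hψ).coeFn_toLp⟩
        rw [inner_int] at h1
        rw [← h1]
        refine integral_congr_ae ?_
        filter_upwards [(mem_lp_lop hD hψ).coeFn_toLp] with y e
        rw [e]
        have h2 : G y / √(ρ y) * Lop ρ A ψ y * ρ y =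
            G y / √(ρ y) * Lop ρ A ψ y * (√(ρ y) * √(ρ y)) := by rw [hsq]
        rw [h2]
        have := (hspos y).ne'
        field_simp)
    rw [inner_int]
    have h3 : ∫ y, G y * F0 y = ∫ y, a * (f0 y * ρ y) := by
      refine integral_congr_ae ?_
      filter_upwards [ha, hF0e] with y e1 e2
      have h4 : G y = a * √(ρ y) := by
        rw [← e1, div_mul_cancel₀ _ (hspos y).ne']
      rw [h4, e2]
      calc a * √(ρ y) * (f0 y * √(ρ y)) = a * (f0 y * (√(ρ y) * √(ρ y))) := by ring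
        _ = _ := by rw [hsq]
    rw [h3, integral_const_mul, h01, mul_zero]
  -- the estimate on the space
  set E := ∫ y, Gam A f f y * ρ y with hE
  have hE0 : 0 ≤ E := by
    refine integral_nonneg fun y => mul_nonneg ?_ (hD.pos y).le
    exact psd hD y fun p => pd p f y
  have hV : ∀ v ∈ (VV hD : Set (Lp ℝ 2 (volume : Measure (ι → ℝ)))),
      |inner ℝ F0 v| ≤ √E * ‖v‖ := by
    rintro v ⟨ψ, hψ, hv⟩
    have h1 : inner ℝ F0 v = -∫ y, Gam A f ψ y * ρ y := by
      rw [inner_int]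
      have h2 : ∫ y, F0 y * v y = ∫ y, f0 y * Lop ρ A ψ y * ρ y := by
        refine integral_congr_ae ?_
        filter_upwards [hF0e, hv] with y e1 e2
        rw [e1, e2]
        calc f0 y * √(ρ y) * (Lop ρ A ψ y * √(ρ y)) =
            f0 y * Lop ρ A ψ y * (√(ρ y) * √(ρ y)) := by ring
          _ = _ := by rw [hsq]
      rw [h2, ibp hD hψ hf0c]
      simp only [hGam']
    have h3 : ‖v‖ ^ 2 = ∫ y, Lop ρ A ψ y ^ 2 * ρ y := by
      rw [← real_inner_self_eq_norm_sq, inner_int]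
      refine integral_congr_ae ?_
      filter_upwards [hv] with y e
      rw [e]
      calc Lop ρ A ψ y * √(ρ y) * (Lop ρ A ψ y * √(ρ y)) =
          Lop ρ A ψ y ^ 2 * (√(ρ y) * √(ρ y)) := by ring
        _ = _ := by rw [hsq]
    have h4 : (inner ℝ F0 v) ^ 2 ≤ E * ‖v‖ ^ 2 := by
      rw [h1, neg_sq, h3]
      exact (cs hD hψ hf hG).trans (mul_le_mul_of_nonneg_left (hB ψ hψ) hE0)
    have h5 : |inner ℝ F0 v| ^ 2 ≤ (√E * ‖v‖) ^ 2 := by
      rw [sq_abs, mul_pow, Real.sq_sqrt hE0]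
      exact h4
    exact (abs_le_of_sq_le_sq' (by rwa [sq_abs] at h5) (by positivity)) |> abs_le.mpr
  have hclosed : IsClosed {v : Lp ℝ 2 (volume : Measure (ι → ℝ)) | |inner ℝ F0 v| ≤ √E * ‖v‖} :=
    isClosed_le ((continuous_const.inner continuous_id).abs) (continuous_const.mul continuous_norm)
  have h6 : |inner ℝ F0 F0| ≤ √E * ‖F0‖ := by
    have h7 : closure ((VV hD : Set (Lp ℝ 2 (volume : Measure (ι → ℝ))))) ⊆
        {v | |inner ℝ F0 v| ≤ √E * ‖v‖} := closure_minimal hV hclosed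
    exact h7 hcl
  rw [real_inner_self_eq_norm_sq, abs_of_nonneg (sq_nonneg _)] at h6
  have h8 : ‖F0‖ ^ 2 ≤ E := by
    rcases eq_or_lt_of_le (norm_nonneg F0) with h | h
    · rw [← h]
      simpa using hE0
    · have h9 : ‖F0‖ ≤ √E := by nlinarith
      calc ‖F0‖ ^ 2 ≤ √E ^ 2 := by gcongr
        _ = E := Real.sq_sqrt hE0
  rw [hnorm, h02] at h8
  have h9 : M * ((∫ y, f y ^ 2 * ρ y) - c ^ 2 * M) ≤ M * E := mul_le_mul_of_nonneg_left h8 hM.le
  have h10 : M * (c ^ 2 * M) = (∫ y, f y * ρ y) ^ 2 := by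
    rw [← hcM]
    ring
  linarith

end Pool.Agent.Lib.MP_fa837f_gt.P2.H41
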