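import Pool.Agent.Lib.MP_fa837f_gt.P2.Iface

/-!
MP_fa837f_gt, project P2, module LI: the Liouville theorem, from the rows L2 and L3.
-/

set_option autoImplicit false

open MeasureTheory Matrix Set Filter Topology

namespace Pool.Agent.Lib.MP_fa837f_gt.P2.H41

/-- there is a mollifier -/
theorem exists_mol (ι : Type) [Fintype ι] [DecidableEq ι] : ∃ φ : (ι → ℝ) → ℝ, Mol φ := by
  let f : ContDiffBump (0 : ι → ℝ) := ⟨1 / 2, 1, by norm_num, by norm_num⟩
  refine ⟨f.normed volume, ⟨f.contDiff_normed, fun x hx => ?_, fun x => f.nonneg_normed x,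
    f.integral_normed⟩⟩
  have h1 : x ∉ Function.support (f.normed volume) := by
    rw [f.support_normed_eq, Metric.mem_ball, dist_zero_right]
    exact not_lt.mpr hx.le
  exact Function.notMem_support.mp h1

theorem l2c_trunc {ι : Type} [Fintype ι] [DecidableEq ι] {ρ : (ι → ℝ) → ℝ}
    (hρ : Continuous ρ) (hpos : ∀ y, 0 < ρ y) {g : (ι → ℝ) → ℝ}
    (hg : AEStronglyMeasurable g volume) (hi : Integrable (fun y => g y ^ 2 * ρ y)) (T : ℝ) :
    L2c fun z => if ‖z‖ ≤ T then g z else 0 := by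
  have hS : MeasurableSet {z : ι → ℝ | ‖z‖ ≤ T} := measurableSet_le measurable_norm measurable_const
  have hm : AEStronglyMeasurable (fun z => if ‖z‖ ≤ T then g z else 0) volume := by
    have h1 := hg.indicator hS
    have h2 : ({z : ι → ℝ | ‖z‖ ≤ T}.indicator g) = fun z => if ‖z‖ ≤ T then g z else 0 := by
      funext z
      simp [Set.indicator_apply]
    rwa [h2] at h1
  refine ⟨hm, ?_, T, fun x hx => if_neg (not_le.mpr hx)⟩
  by_cases hT : 0 ≤ T
  · have hc : IsCompact {z : ι → ℝ | ‖z‖ ≤ T} := by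
      have : {z : ι → ℝ | ‖z‖ ≤ T} = Metric.closedBall 0 T := by
        ext x
        simp
      rw [this]
      exact isCompact_closedBall 0 T
    obtain ⟨x0, _, h0⟩ := hc.exists_isMinOn ⟨0, by simpa using hT⟩ hρ.continuousOn
    have hm0 := hpos x0
    refine Integrable.mono' (hi.const_mul (ρ x0)⁻¹) (hm.pow 2) (Eventually.of_forall fun z => ?_)
    by_cases hz : ‖z‖ ≤ T
    · have h1 : ρ x0 ≤ ρ z := h0 hz
      rw [if_pos hz, Real.norm_eq_abs, abs_of_nonneg (sq_nonneg _)]
      have h2 : 1 ≤ (ρ x0)⁻¹ * ρ z := by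
        rw [inv_mul_eq_div, one_le_div hm0]
        exact h1
      nlinarith [sq_nonneg (g z)]
    · rw [if_neg hz]
      have h3 : 0 ≤ (ρ x0)⁻¹ * (g z ^ 2 * ρ z) := by
        have := hpos z
        positivity
      simpa using h3
  · have h1 : (fun x : ι → ℝ => (if ‖x‖ ≤ T then g x else 0) ^ 2) = fun _ => 0 := by
      funext x
      have : ¬ ‖x‖ ≤ T := fun h => hT (le_trans (norm_nonneg x) h)
      simp [if_neg this]
    rw [h1]
    exact integrable_zero _ _ _

/-- LI -/
theorem li_st (hL2 : L2Statement) (hL3 : L3Statement) : LiStatement := by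
  intro ι _ _ ρ A hD g hg hi hψ
  obtain ⟨φ, hφ⟩ := exists_mol ι
  exact hL3 ι g φ hg (fun T => l2c_trunc hD.sρ.continuous hD.pos hg hi T) hφ
    (fun T => hL2 ι ρ A hD g hg hi hψ φ hφ T)

end Pool.Agent.Lib.MP_fa837f_gt.P2.H41
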